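import Pool.Agent.Lib.MP_60829e_nt.SB.Hyp

/-! # The hyperplane theorem in coordinates, values zero and values in `Lt` -/

open Module

namespace MP60829e.SL

open MP60829e.ST (Qa Lsp Lt)
open MP60829e.SB (pt)

/-- The hyperplane theorem with the constant `C e`. -/
def HPC (C : ℕ → ℕ) : Prop :=
  ∀ (e : ℕ) (a : Fin e → ℂ), LinearIndependent Qa a → ∀ V : Submodule Qa (Fin e → ℂ),
    (∀ v ∈ V, ∀ i, v i ∈ Lsp) → (∀ v ∈ V, ∑ i, a i * v i = 0) →
      FiniteDimensional Qa V ∧ finrank Qa V ≤ C e

theorem smul_eq (c : Qa) (z : ℂ) : c • z = (c : ℂ) * z := rfl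

theorem Lsp_le_Lt : Lsp ≤ Lt := by
  unfold ST.Lsp ST.Lt
  exact Submodule.span_mono Set.subset_union_right

theorem mem_Lt {x : ℂ} (hx : x ∈ Lt) : ∃ β : Qa, ∃ l ∈ Lsp, x = (β : ℂ) + l := by
  unfold ST.Lt at hx
  rw [Submodule.span_union, Submodule.mem_sup] at hx
  obtain ⟨y, hy, l, hl, rfl⟩ := hx
  rw [Submodule.mem_span_singleton] at hy
  obtain ⟨β, rfl⟩ := hy
  refine ⟨β, l, hl, ?_⟩
  rw [smul_eq, mul_one]

theorem one_mem_Lt : (1 : ℂ) ∈ Lt := by
  unfold ST.Lt
  exact Submodule.subset_span (Or.inl rfl)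

theorem pt_add {ι : Type} {r : ℕ} (lam : Fin r → ℂ) (M T : ι × Fin r → Qa) (i : ι) :
    pt lam (M + T) i = pt lam M i + pt lam T i := by
  simp only [pt, Pi.add_apply, add_smul, Finset.sum_add_distrib]

theorem pt_smul {ι : Type} {r : ℕ} (lam : Fin r → ℂ) (c : Qa) (M : ι × Fin r → Qa) (i : ι) :
    pt lam (c • M) i = c • pt lam M i := by
  simp only [pt, Pi.smul_apply, smul_eq_mul, mul_smul, Finset.smul_sum]

theorem pt_mem {ι : Type} {r : ℕ} (lam : Fin r → ℂ) (hlog : ∀ j, lam j ∈ Lsp)
    (M : ι × Fin r → Qa) (i : ι) : pt lam M i ∈ Lsp :=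
  Submodule.sum_mem _ fun j _ => Submodule.smul_mem _ _ (hlog j)

theorem pt_inj {ι : Type} {r : ℕ} (lam : Fin r → ℂ) (hlam : LinearIndependent Qa lam)
    (M : ι × Fin r → Qa) (h : ∀ i, pt lam M i = 0) : M = 0 := by
  funext p
  exact Fintype.linearIndependent_iff.1 hlam (fun j => M (p.1, j)) (h p.1) p.2

/-- The vector of the points, as a linear map. -/
noncomputable def vec {Q : Type} {r : ℕ} (lam : Fin r → ℂ) :
    (Q × Fin r → Qa) →ₗ[Qa] (Q → ℂ) where
  toFun M i := pt lam M i
  map_add' M T := by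
    funext i
    exact pt_add lam M T i
  map_smul' c M := by
    funext i
    exact pt_smul lam c M i

/-- Value zero. -/
theorem hyp0_count {C : ℕ → ℕ} (hC : HPC C) {Q : Type} [Fintype Q] {r N : ℕ} (lam : Fin r → ℂ)
    (hlam : LinearIndependent Qa lam) (hlog : ∀ j, lam j ∈ Lsp) (g : Q → ℂ)
    (hg : LinearIndependent Qa g) (β : Fin N → Q × Fin r → Qa) (hβ : LinearIndependent Qa β)
    (h : ∀ s, ∑ i, g i * pt lam (β s) i = 0) : N ≤ C (Fintype.card Q) := by
  classical
  let e := Fintype.equivFin Q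
  let φ : (Q × Fin r → Qa) →ₗ[Qa] (Fin (Fintype.card Q) → ℂ) :=
    (LinearMap.funLeft Qa ℂ e.symm).comp (vec lam)
  have hφ : ∀ M i, φ M i = pt lam M (e.symm i) := fun M i => rfl
  have hinj : LinearMap.ker φ = ⊥ := by
    rw [LinearMap.ker_eq_bot']
    intro M hM
    refine pt_inj lam hlam M fun i => ?_
    have h1 := congrFun hM (e i)
    rw [hφ, Equiv.symm_apply_apply] at h1
    exact h1
  let V : Submodule Qa (Fin (Fintype.card Q) → ℂ) := (Submodule.span Qa (Set.range β)).map φ
  have h1 : ∀ M ∈ Submodule.span Qa (Set.range β), ∑ i, g i * pt lam M i = 0 := by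
    intro M hM
    induction hM using Submodule.span_induction with
    | mem x hx =>
      obtain ⟨s, rfl⟩ := hx
      exact h s
    | zero =>
      refine Finset.sum_eq_zero fun i _ => ?_
      have : pt lam (0 : Q × Fin r → Qa) i = 0 := by simp [pt]
      rw [this, mul_zero]
    | add x y _ _ hx hy =>
      simp only [pt_add, mul_add, Finset.sum_add_distrib, hx, hy, add_zero]
    | smul a x _ hx =>
      simp only [pt_smul, mul_smul_comm]
      rw [← Finset.smul_sum, hx, smul_zero]
  obtain ⟨hfin, hle⟩ := hC _ (fun i => g (e.symm i)) (hg.comp _ e.symm.injective) V (by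
    rintro _ ⟨M, -, rfl⟩ i
    exact pt_mem lam hlog M _) (by
    rintro _ ⟨M, hM, rfl⟩
    rw [← h1 M hM]
    exact e.symm.sum_comp fun i => g i * pt lam M i)
  have hN : finrank Qa V = N := by
    have h2 : finrank Qa V = finrank Qa (Submodule.span Qa (Set.range β)) :=
      (LinearEquiv.finrank_eq (Submodule.equivMapOfInjective φ
        (LinearMap.ker_eq_bot.1 hinj) _)).symm
    rw [h2, finrank_span_eq_card hβ, Fintype.card_fin]
  rwa [hN] at hle

/-- Values in `Lt`. PROOF. A subspace of codimension at most one has values in `Lsp`; apply the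
hyperplane theorem to `(g, -1)`. -/
theorem hypL_count {C : ℕ → ℕ} (hC : HPC C) {Q : Type} [Fintype Q] {r N : ℕ} (lam : Fin r → ℂ)
    (hlam : LinearIndependent Qa lam) (hlog : ∀ j, lam j ∈ Lsp) (g : Q → ℂ)
    (hg : LinearIndependent Qa fun i => (Submodule.span Qa {(1 : ℂ)}).mkQ (g i))
    (β : Fin N → Q × Fin r → Qa) (hβ : LinearIndependent Qa β)
    (h : ∀ s, ∑ i, g i * pt lam (β s) i ∈ Lt) : N ≤ C (Fintype.card Q + 1) + 1 := by
  classical
  let e := Fintype.equivFin Q
  -- the value
  let θ : (Q × Fin r → Qa) →ₗ[Qa] ℂ :=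
    { toFun := fun M => ∑ i, g i * pt lam M i
      map_add' := fun M T => by
        simp only [pt_add, mul_add, Finset.sum_add_distrib]
      map_smul' := fun c M => by
        simp only [pt_smul, mul_smul_comm, RingHom.id_apply]
        rw [Finset.smul_sum] }
  have hθ : ∀ M, θ M = ∑ i, g i * pt lam M i := fun M => rfl
  set B : Submodule Qa (Q × Fin r → Qa) := Submodule.span Qa (Set.range β) with hB
  have hBfin : FiniteDimensional Qa B := FiniteDimensional.span_of_finite Qa (Set.finite_range β)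
  have hBL : ∀ M ∈ B, θ M ∈ Lt := by
    intro M hM
    have h1 : B ≤ Lt.comap θ := by
      rw [hB, Submodule.span_le]
      rintro _ ⟨s, rfl⟩
      exact h s
    exact h1 hM
  set B0 : Submodule Qa (Q × Fin r → Qa) := B ⊓ Lsp.comap θ with hB0
  -- codimension one
  have hcod : finrank Qa B ≤ finrank Qa B0 + 1 := by
    by_cases hall : B ≤ Lsp.comap θ
    · have h1 : B0 = B := inf_eq_left.2 hall
      rw [h1]
      omega
    · obtain ⟨w, hw, hw0⟩ := SetLike.not_le_iff_exists.1 hall
      obtain ⟨b, l, hl, hwl⟩ := mem_Lt (hBL w hw)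
      have hb : b ≠ 0 := by
        rintro rfl
        apply hw0
        show θ w ∈ Lsp
        rw [hwl]
        simpa using hl
      have hle : B ≤ B0 ⊔ Submodule.span Qa {w} := by
        intro v hv
        obtain ⟨b', l', hl', hvl⟩ := mem_Lt (hBL v hv)
        rw [Submodule.mem_sup]
        refine ⟨v - (b' / b) • w, ⟨B.sub_mem hv (B.smul_mem _ hw), ?_⟩, (b' / b) • w,
          Submodule.smul_mem _ _ (Submodule.mem_span_singleton_self w), by abel⟩
        show θ (v - (b' / b) • w) ∈ Lsp
        have h1 : θ (v - (b' / b) • w) = l' - (b' / b) • l := by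
          rw [map_sub, map_smul, hvl, hwl, smul_add, smul_eq (b' / b) (b : ℂ)]
          have h2 : ((b' / b : Qa) : ℂ) * (b : ℂ) = b' := by
            have h3 : (b' / b : Qa) * b = b' := div_mul_cancel₀ _ hb
            exact_mod_cast congrArg (fun x : Qa => (x : ℂ)) h3
          rw [h2]
          ring
        rw [h1]
        exact Lsp.sub_mem hl' (Lsp.smul_mem _ hl)
      have h1 := Submodule.finrank_mono hle
      have h2 := Submodule.finrank_add_le_finrank_add_finrank B0 (Submodule.span Qa {w})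
      have h3 : finrank Qa (Submodule.span Qa {w}) ≤ 1 := by
        have := finrank_span_le_card (R := Qa) ({w} : Set (Q × Fin r → Qa))
        simpa using this
      omega
  -- the vectors
  let φ : (Q × Fin r → Qa) →ₗ[Qa] (Fin (Fintype.card Q + 1) → ℂ) :=
    { toFun := fun M => Fin.snoc (α := fun _ => ℂ) (fun i => pt lam M (e.symm i)) (θ M)
      map_add' := fun M T => by
        funext i
        refine Fin.lastCases ?_ (fun i => ?_) i
        · simp only [Fin.snoc_last, Pi.add_apply, map_add]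
        · simp only [Fin.snoc_castSucc, Pi.add_apply, pt_add]
      map_smul' := fun c M => by
        funext i
        refine Fin.lastCases ?_ (fun i => ?_) i
        · simp only [Fin.snoc_last, Pi.smul_apply, map_smul, RingHom.id_apply]
        · simp only [Fin.snoc_castSucc, Pi.smul_apply, pt_smul, RingHom.id_apply] }
  have hφ1 : ∀ M (i : Fin (Fintype.card Q)), φ M i.castSucc = pt lam M (e.symm i) := by
    intro M i
    show Fin.snoc (α := fun _ => ℂ) (fun i => pt lam M (e.symm i)) (θ M) i.castSucc = _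
    rw [Fin.snoc_castSucc]
  have hφ2 : ∀ M, φ M (Fin.last _) = θ M := by
    intro M
    show Fin.snoc (α := fun _ => ℂ) (fun i => pt lam M (e.symm i)) (θ M) (Fin.last _) = _
    rw [Fin.snoc_last]
  have hinj : LinearMap.ker φ = ⊥ := by
    rw [LinearMap.ker_eq_bot']
    intro M hM
    refine pt_inj lam hlam M fun i => ?_
    have h1 := congrFun hM (e i).castSucc
    rw [hφ1, Equiv.symm_apply_apply] at h1
    exact h1
  let a : Fin (Fintype.card Q + 1) → ℂ := Fin.snoc (α := fun _ => ℂ) (fun i => g (e.symm i)) (-1)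
  have ha1 : ∀ i : Fin (Fintype.card Q), a i.castSucc = g (e.symm i) := by
    intro i
    exact Fin.snoc_castSucc (α := fun _ => ℂ) _ _ _
  have ha2 : a (Fin.last _) = -1 := Fin.snoc_last (α := fun _ => ℂ) _ _
  have hali : LinearIndependent Qa a := by
    rw [Fintype.linearIndependent_iff]
    intro c hc
    rw [Fin.sum_univ_castSucc] at hc
    simp only [ha1, ha2] at hc
    have h1 : ∑ i : Fin (Fintype.card Q), c i.castSucc •
        (Submodule.span Qa {(1 : ℂ)}).mkQ (g (e.symm i)) = 0 := by
      have h2 := congrArg (Submodule.span Qa {(1 : ℂ)}).mkQ hc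
      rw [map_add, map_zero, map_sum] at h2
      simp only [map_smul] at h2
      have h3 : c (Fin.last (Fintype.card Q)) • (Submodule.span Qa {(1 : ℂ)}).mkQ (-1 : ℂ) = 0 := by
        have h4 : (Submodule.span Qa {(1 : ℂ)}).mkQ (-1 : ℂ) = 0 := by
          rw [Submodule.mkQ_apply, Submodule.Quotient.mk_eq_zero]
          exact Submodule.neg_mem _ (Submodule.mem_span_singleton_self 1)
        rw [h4, smul_zero]
      rw [h3, add_zero] at h2
      exact h2
    have h5 := Fintype.linearIndependent_iff.1 (hg.comp _ e.symm.injective)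
      (fun i : Fin (Fintype.card Q) => c i.castSucc) h1
    have h6 : c (Fin.last (Fintype.card Q)) = 0 := by
      simp only [h5, zero_smul, Finset.sum_const_zero, zero_add] at hc
      rw [smul_eq] at hc
      have h7 : ((c (Fin.last (Fintype.card Q)) : Qa) : ℂ) = 0 := by
        have h8 : (-1 : ℂ) ≠ 0 := by norm_num
        exact (mul_eq_zero.1 hc).resolve_right h8
      exact_mod_cast h7
    intro i
    refine Fin.lastCases h6 (fun i => ?_) i
    exact h5 i
  obtain ⟨hfin, hle⟩ := hC _ a hali (B0.map φ) (by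
    rintro _ ⟨M, hM, rfl⟩ i
    refine Fin.lastCases ?_ (fun i => ?_) i
    · rw [hφ2]
      exact hM.2
    · rw [hφ1]
      exact pt_mem lam hlog M _) (by
    rintro _ ⟨M, hM, rfl⟩
    rw [Fin.sum_univ_castSucc]
    simp only [ha1, ha2, hφ1, hφ2]
    have h1 : ∑ i : Fin (Fintype.card Q), g (e.symm i) * pt lam M (e.symm i) = θ M :=
      e.symm.sum_comp fun i => g i * pt lam M i
    rw [h1]
    ring)
  have h2 : finrank Qa (B0.map φ) = finrank Qa B0 :=
    (LinearEquiv.finrank_eq (Submodule.equivMapOfInjective φ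
      (LinearMap.ker_eq_bot.1 hinj) _)).symm
  have hN : finrank Qa B = N := by
    rw [hB, finrank_span_eq_card hβ, Fintype.card_fin]
  omega

/-- A basis modulo `A` of the span of the numbers `g t` among these numbers. -/
theorem exists_subA {ι : Type} [Fintype ι] (A : Submodule Qa ℂ) (g : ι → ℂ)
    (hg : ∃ t, g t ∉ A) : ∃ Q : Finset ι,
    Q.Nonempty ∧ LinearIndependent Qa (fun i : {i // i ∈ Q} => A.mkQ (g i)) ∧
      ∃ γ : {j // j ∉ Q} × {i // i ∈ Q} → Qa, ∀ j, g j.1 - ∑ i, γ (j, i) • g i.1 ∈ A := by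
  classical
  obtain ⟨t0, ht0⟩ := hg
  have ht0' : A.mkQ (g t0) ≠ 0 := by
    rw [Submodule.mkQ_apply, Ne, Submodule.Quotient.mk_eq_zero]
    exact ht0
  let P : Finset ι → Prop := fun Q => LinearIndependent Qa (fun i : {i // i ∈ Q} => A.mkQ (g i))
  have h0 : P {t0} := by
    have h1 : LinearIndepOn Qa (fun t => A.mkQ (g t)) ({t0} : Set ι) :=
      LinearIndepOn.singleton ht0'
    have h2 : LinearIndepOn Qa (fun t => A.mkQ (g t)) ((({t0} : Finset ι)) : Set ι) := by
      rwa [Finset.coe_singleton]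
    exact h2
  obtain ⟨Q, hQmem, hQmax⟩ := Finset.exists_max_image
    ((Finset.univ : Finset (Finset ι)).filter P) Finset.card ⟨{t0}, by simpa using h0⟩
  have hQ : P Q := (Finset.mem_filter.1 hQmem).2
  have hcard : 1 ≤ Q.card := by
    have := hQmax {t0} (by simpa using h0)
    simpa using this
  have key : ∀ j : {j // j ∉ Q}, A.mkQ (g j.1) ∈
      Submodule.span Qa (Set.range fun i : {i // i ∈ Q} => A.mkQ (g i)) := by
    intro j
    by_contra hj
    have hins : P (insert j.1 Q) := by
      have h1 : LinearIndepOn Qa (fun t => A.mkQ (g t)) (insert j.1 (Q : Set ι)) := by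
        rw [linearIndepOn_insert (by simpa using j.2)]
        refine ⟨hQ, ?_⟩
        intro h2
        apply hj
        rwa [Set.image_eq_range] at h2
      have h2 : LinearIndepOn Qa (fun t => A.mkQ (g t)) ((insert j.1 Q : Finset ι) : Set ι) := by
        rwa [Finset.coe_insert]
      exact h2
    have := hQmax _ (by simpa using hins)
    rw [Finset.card_insert_of_notMem j.2] at this
    omega
  have key2 : ∀ j : {j // j ∉ Q}, ∃ c : {i // i ∈ Q} → Qa,
      g j.1 - ∑ i, c i • g i.1 ∈ A := by
    intro j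
    obtain ⟨c, hc⟩ := (Submodule.mem_span_range_iff_exists_fun Qa).1 (key j)
    refine ⟨c, ?_⟩
    rw [← Submodule.Quotient.mk_eq_zero, ← Submodule.mkQ_apply, map_sub, map_sum, ← hc]
    simp only [map_smul, sub_self]
  choose c hc using key2
  exact ⟨Q, Finset.card_pos.1 hcard, hQ, fun x => c x.1 x.2, fun j => hc j⟩

end MP60829e.SL
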