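import Pool.Agent.Lib.MP_60829e_nt.SL.Step
import Pool.Agent.Lib.MP_60829e_nt.SB.Iter
import Pool.Agent.Lib.MP_60829e_nt.FD.Multi

/-! # The induction, values in `Lt` -/

open MvPolynomial Module

namespace MP60829e.SL

open MP60829e.ST (Qa Lsp Lt)
open MP60829e.PS
open MP60829e.SB (pt pv cls evl rk)

/-- A polynomial with constant partial derivatives is affine. -/
theorem affine_of_grad {ζ ι : Type} [Fintype ζ] [Fintype ι] (P : MvPolynomial (ζ ⊕ ι) ℂ)
    (z : ζ → Qa) (α : ι → ℂ) (x : ι → ℂ)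
    (h : ∀ (t : ι) (y : ι → ℂ), eval (pv z y) (pderiv (Sum.inr t) P) = α t) (ρ : ι → ℂ) :
    eval (pv z fun t => x t + ρ t) P = eval (pv z x) P + ∑ t, α t * ρ t := by
  set g : ζ ⊕ ι → Polynomial ℂ := Sum.elim (fun l => Polynomial.C (z l : ℂ))
    (fun i => Polynomial.C (x i) + Polynomial.C (ρ i) * Polynomial.X) with hg
  have hev : ∀ (R : MvPolynomial (ζ ⊕ ι) ℂ) (t : ℂ),
      Polynomial.eval t (aeval g R) = eval (pv z fun i => x i + ρ i * t) R := by
    intro R t
    rw [FD.eval_aeval_poly]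
    congr 2
    funext s
    rcases s with l | i
    · simp [hg, SB.pv]
    · simp [hg, SB.pv]
  have hd : Polynomial.derivative (aeval g P) = Polynomial.C (∑ t, α t * ρ t) := by
    rw [FD.derivative_aeval, Fintype.sum_sum_type]
    have h1 : ∀ l : ζ, aeval g (pderiv (Sum.inl l) P) *
        Polynomial.derivative (g (Sum.inl l)) = 0 := by
      intro l
      simp [hg]
    have h2 : ∀ i : ι, aeval g (pderiv (Sum.inr i) P) = Polynomial.C (α i) := by
      intro i
      apply Polynomial.funext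
      intro t
      rw [hev, h, Polynomial.eval_C]
    rw [Finset.sum_eq_zero fun l _ => h1 l, zero_add, map_sum]
    refine Finset.sum_congr rfl fun i _ => ?_
    rw [h2, map_mul]
    congr 1
    simp [hg]
  have h3 : Polynomial.derivative (aeval g P - Polynomial.C (∑ t, α t * ρ t) * Polynomial.X) = 0 := by
    rw [Polynomial.derivative_sub, hd, Polynomial.derivative_mul, Polynomial.derivative_C,
      Polynomial.derivative_X, zero_mul, zero_add, mul_one, sub_self]
  have h4 := Polynomial.eq_C_of_natDegree_eq_zero (Polynomial.derivative_eq_zero.1 h3)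
  have h5 : Polynomial.eval 1 (aeval g P - Polynomial.C (∑ t, α t * ρ t) * Polynomial.X) =
      Polynomial.eval 0 (aeval g P - Polynomial.C (∑ t, α t * ρ t) * Polynomial.X) := by
    rw [h4, Polynomial.eval_C, Polynomial.eval_C]
  simp only [Polynomial.eval_sub, Polynomial.eval_mul, Polynomial.eval_C, Polynomial.eval_X,
    hev, mul_one, mul_zero, add_zero, sub_zero] at h5
  rw [← h5]
  ring

/-- An ultrafilter picks one of finitely many alternatives. -/
theorem pick_ex {I A : Type} [Finite A] (U : Ultrafilter I) (P : I → A → Prop)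
    (h : ∀ᶠ a in (U : Filter I), ∃ c, P a c) : ∃ c, ∀ᶠ a in (U : Filter I), P a c := by
  classical
  obtain ⟨a0, c0, -⟩ := h.exists
  obtain ⟨c, hc⟩ := SB.pick U fun a => if h : ∃ c, P a c then h.choose else c0
  refine ⟨c, ?_⟩
  filter_upwards [h, hc] with a ha1 ha2
  rw [dif_pos ha1] at ha2
  rw [← ha2]
  exact ha1.choose_spec

/-- The case of a polynomial with value zero which does not vanish identically. -/
theorem case_zero {C : ℕ → ℕ} (hC : HPC C) {I ζ ι : Type} [Fintype ζ] [Fintype ι]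
    {r s s' j : ℕ} (lam : Fin r → ℂ) (hlam : LinearIndependent Qa lam)
    (hlog : ∀ j, lam j ∈ Lsp) (U : Ultrafilter I) (B : ℕ → ℕ) (ok : ℕ → Prop) (hok : ok s')
    (IH : ∀ m < Fintype.card ι, Claim lam U ok j m (B m))
    (F : Fin s → MvPolynomial (ζ ⊕ ι) ℂ) (H : Fin s' → MvPolynomial (ζ ⊕ ι) ℂ)
    (G : MvPolynomial (ζ ⊕ ι) ℂ) (z : I → ζ → Qa) (M : I → ι × Fin r → Qa)
    (Δ : Submodule (UP U Qa) (Derivation Qa (UP U Qa) (UP U Qa)))
    (hz : ∀ D ∈ Δ, ∀ t, D (cls U z t) = 0)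
    (hF : ∀ᶠ a in (U : Filter I), ∀ i, eval (pv (z a) (pt lam (M a))) (F i) = 0)
    (hH : ∀ᶠ a in (U : Filter I), ∀ i, eval (pv (z a) (pt lam (M a))) (H i) ∈ Lt)
    (hR : ∀ᶠ a in (U : Filter I), NoR F H j (z a) (pt lam (M a)))
    (hG : ∀ᶠ a in (U : Filter I), eval (pv (z a) (pt lam (M a))) G = 0)
    (hx : ∀ᶠ a in (U : Filter I), ∃ x, eval (pv (z a) x) G ≠ 0) :
    ∃ e, 1 ≤ e ∧ e ≤ Fintype.card ι ∧
      rk Δ (cls U M) ≤ B (Fintype.card ι - e) + e * (Fintype.card ι - e) + C e := by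
  obtain ⟨S, hS⟩ := SB.exists_iter G
  have h1 : ∀ᶠ a in (U : Filter I), ∃ G' : {G' // G' ∈ S},
      eval (pv (z a) (pt lam (M a))) G'.1 = 0 ∧
        ∃ i, eval (pv (z a) (pt lam (M a))) (pderiv (Sum.inr i) G'.1) ≠ 0 := by
    filter_upwards [hG, hx] with a ha1 ha2
    obtain ⟨x, hx⟩ := ha2
    obtain ⟨G', hG', h2, h3⟩ := hS (fun t => (z a t : ℂ)) (pt lam (M a)) x ha1 hx
    exact ⟨⟨G', hG'⟩, h2, h3⟩
  obtain ⟨G', hG'⟩ := pick_ex U _ h1
  refine step lam hlog U (⊥ : Submodule Qa ℂ) ⊥ ?_ (cnt_zero hC lam hlam hlog) B ok hok IH F H G'.1 z M Δ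
    hz hF hH hR (hG'.mono fun a ha => ?_) (hG'.mono fun a ha => ?_)
  · intro c hc t _
    rw [Submodule.mem_bot] at hc ⊢
    rw [hc, zero_mul]
  · rw [Submodule.mem_bot]
    exact ha.1
  · obtain ⟨t, ht⟩ := ha.2
    exact ⟨t, by rwa [Submodule.mem_bot]⟩

private theorem eval_ren {ζ ι : Type} (z : ζ → Qa) (c : Unit → Qa) (x : ι → ℂ)
    (P : MvPolynomial (ζ ⊕ ι) ℂ) :
    eval (pv (Sum.elim z c) x) (rename (Sum.map Sum.inl id : ζ ⊕ ι → (ζ ⊕ Unit) ⊕ ι) P) =
      eval (pv z x) P := by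
  rw [eval_rename]
  congr 1
  congr 1
  funext s
  rcases s with t | i
  · rfl
  · rfl

/-- The claim. -/
theorem claimL (hC : HPC fun e => e * (e - 1)) {I : Type} {r : ℕ} (lam : Fin r → ℂ)
    (hlam : LinearIndependent Qa lam) (hlog : ∀ j, lam j ∈ Lsp) (U : Ultrafilter I) (j m : ℕ) :
    Claim lam U (fun _ => True) j m (j * r + m * (m + 2)) := by
  classical
  induction m using Nat.strong_induction_on with
  | _ m ih =>
  intro ζ ι _ _ hm s s' _ F H z M Δ hz hF hH hR
  subst hm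
  have IH : ∀ m < Fintype.card ι, Claim lam U (fun _ => True) j m (j * r + m * (m + 2)) := ih
  -- numbers
  have num : ∀ e, 1 ≤ e → e ≤ Fintype.card ι → ∀ R : ℕ,
      R ≤ (j * r + (Fintype.card ι - e) * (Fintype.card ι - e + 2)) +
        e * (Fintype.card ι - e) + (e + 1) * e + 1 →
      R ≤ j * r + Fintype.card ι * (Fintype.card ι + 2) := by
    intro e he1 he2 R hR
    obtain ⟨d, hd⟩ : ∃ d, Fintype.card ι = d + e := ⟨Fintype.card ι - e, by omega⟩
    have h1 : Fintype.card ι - e = d := by omega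
    rw [h1] at hR
    rw [hd]
    have h2 : (d + e) * (d + e + 2) = d * (d + 2) + e * d + (e + 1) * e + 1 +
        (e * d + e - 1) := by
      obtain ⟨f, rfl⟩ : ∃ f, e = f + 1 := ⟨e - 1, by omega⟩
      have h3 : (f + 1) * d + (f + 1) - 1 = (f + 1) * d + f := by omega
      rw [h3]
      ring
    omega
  -- case A
  by_cases hA : ∀ᶠ a in (U : Filter I), ∃ i, ∃ x, eval (pv (z a) x) (F i) ≠ 0
  · obtain ⟨i, hi⟩ := pick_ex U _ hA
    obtain ⟨e, he1, he2, he3⟩ := case_zero hC lam hlam hlog U (fun m => j * r + m * (m + 2)) (fun _ => True) trivial IH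
      F H (F i) z M Δ hz hF hH hR (hF.mono fun a ha => ha i) hi
    refine num e he1 he2 _ (he3.trans ?_)
    have : e * (e - 1) ≤ (e + 1) * e + 1 := by
      have h1 : e * (e - 1) ≤ e * (e + 1) := Nat.mul_le_mul_left _ (by omega)
      nlinarith
    show _ + _ + e * (e - 1) ≤ _
    omega
  have hA' : ∀ᶠ a in (U : Filter I), ∀ i x, eval (pv (z a) x) (F i) = 0 := by
    rw [← Ultrafilter.eventually_not] at hA
    filter_upwards [hA] with a ha i x
    by_contra h
    exact ha ⟨i, x, h⟩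
  -- case B
  by_cases hB : ∀ᶠ a in (U : Filter I), ∃ i, ∃ t, eval (pv (z a) (pt lam (M a)))
      (pderiv (Sum.inr t) (H i)) ∉ Submodule.span Qa {(1 : ℂ)}
  · obtain ⟨i, hi⟩ := pick_ex U _ hB
    obtain ⟨e, he1, he2, he3⟩ := step lam hlog U Lt (Submodule.span Qa {(1 : ℂ)}) (by
        intro c hc t ht
        obtain ⟨q, rfl⟩ := Submodule.mem_span_singleton.1 hc
        rw [smul_eq, mul_one, ← smul_eq]
        exact Lsp_le_Lt (Lsp.smul_mem q ht)) (cnt_Lt hC lam hlam hlog)
      (fun m => j * r + m * (m + 2)) (fun _ => True) trivial IH F H (H i) z M Δ hz hF hH hR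
      (hH.mono fun a ha => ha i) hi
    refine num e he1 he2 _ (he3.trans ?_)
    show _ + _ + ((e + 1) * (e + 1 - 1) + 1) ≤ _
    have h1 : e + 1 - 1 = e := by omega
    rw [h1]
    omega
  have hB' : ∀ᶠ a in (U : Filter I), ∀ i t, ∃ q : Qa, eval (pv (z a) (pt lam (M a)))
      (pderiv (Sum.inr t) (H i)) = (q : ℂ) := by
    rw [← Ultrafilter.eventually_not] at hB
    filter_upwards [hB] with a ha i t
    by_contra h
    refine ha ⟨i, t, fun h1 => h ?_⟩
    obtain ⟨q, hq⟩ := Submodule.mem_span_singleton.1 h1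
    exact ⟨q, by rw [← hq, smul_eq, mul_one]⟩
  -- case C
  by_cases hCc : ∀ᶠ a in (U : Filter I), ∃ p : Fin s' × ι, ∃ x,
      eval (pv (z a) x) (pderiv (Sum.inr p.2) (H p.1)) ≠
        eval (pv (z a) (pt lam (M a))) (pderiv (Sum.inr p.2) (H p.1))
  · obtain ⟨⟨i, t⟩, hi⟩ := pick_ex U _ hCc
    obtain ⟨c, hc⟩ : ∃ c : I → Unit → Qa, ∀ᶠ a in (U : Filter I),
        eval (pv (z a) (pt lam (M a))) (pderiv (Sum.inr t) (H i)) = (c a () : ℂ) := by
      refine ⟨fun a _ => if h : ∃ q : Qa, eval (pv (z a) (pt lam (M a)))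
        (pderiv (Sum.inr t) (H i)) = (q : ℂ) then h.choose else 0, ?_⟩
      filter_upwards [hB'] with a ha
      rw [dif_pos (ha i t)]
      exact (ha i t).choose_spec
    set ren : MvPolynomial (ζ ⊕ ι) ℂ → MvPolynomial ((ζ ⊕ Unit) ⊕ ι) ℂ :=
      fun P => rename (Sum.map Sum.inl id) P with hren
    set G : MvPolynomial ((ζ ⊕ Unit) ⊕ ι) ℂ :=
      ren (pderiv (Sum.inr t) (H i)) - X (Sum.inl (Sum.inr ())) with hGdef
    have hevG : ∀ a x, eval (pv (Sum.elim (z a) (c a)) x) G =
        eval (pv (z a) x) (pderiv (Sum.inr t) (H i)) - (c a () : ℂ) := by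
      intro a x
      rw [hGdef, map_sub, hren, eval_ren, eval_X]
      rfl
    set Δ' := Δ ⊓ LinearMap.ker (evl (cls U c)) with hΔ'
    have h1 : rk Δ (cls U M) ≤ rk Δ' (cls U M) + rk Δ (cls U c) :=
      SB.rk_split Δ (cls U M) (cls U c)
    have h2 : rk Δ (cls U c) ≤ 1 := by
      refine (SB.rk_le_card Δ (cls U c)).trans ?_
      rw [Fintype.card_unit]
    obtain ⟨e, he1, he2, he3⟩ := case_zero hC lam hlam hlog U (fun m => j * r + m * (m + 2)) (fun _ => True) trivial IH
      (fun i => ren (F i)) (fun i => ren (H i)) G (fun a => Sum.elim (z a) (c a)) M Δ' (by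
        rintro D hD (t | t)
        · exact hz D (Submodule.mem_inf.1 hD).1 t
        · exact congrFun (LinearMap.mem_ker.1 (Submodule.mem_inf.1 hD).2) t) (by
        filter_upwards [hF] with a ha i
        rw [hren, eval_ren]
        exact ha i) (by
        filter_upwards [hH] with a ha i
        rw [hren, eval_ren]
        exact ha i) (by
        filter_upwards [hR] with a ha
        intro R h1 h2
        refine ha R (fun ρ hρ i => ?_) (fun i => ?_)
        · have h3 := h1 ρ hρ i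
          rw [hren, eval_ren] at h3
          exact h3
        · obtain ⟨α, hα⟩ := h2 i
          refine ⟨α, fun ρ hρ => ?_⟩
          have h3 := hα ρ hρ
          rw [hren, eval_ren, eval_ren] at h3
          exact h3) (by
        filter_upwards [hc] with a ha
        rw [hevG, ha, sub_self]) (by
        filter_upwards [hc, hi] with a ha1 ha2
        obtain ⟨x, hx⟩ := ha2
        refine ⟨x, ?_⟩
        rw [hevG, ← ha1]
        exact sub_ne_zero.2 hx)
    refine num e he1 he2 _ (h1.trans ((add_le_add he3 h2).trans ?_))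
    show _ + _ + e * (e - 1) + 1 ≤ _
    have h3 : e * (e - 1) ≤ (e + 1) * e := by
      rw [mul_comm (e + 1) e]
      exact Nat.mul_le_mul_left _ (by omega)
    omega
  -- case D
  have hD' : ∀ᶠ a in (U : Filter I), ∀ i t x, eval (pv (z a) x) (pderiv (Sum.inr t) (H i)) =
      eval (pv (z a) (pt lam (M a))) (pderiv (Sum.inr t) (H i)) := by
    rw [← Ultrafilter.eventually_not] at hCc
    filter_upwards [hCc] with a ha i t x
    by_contra h
    exact ha ⟨(i, t), x, h⟩
  obtain ⟨a, ⟨⟨⟨ha1, ha2⟩, ha3⟩, ha4⟩⟩ := (((hA'.and hB').and hD').and hR).exists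
  have h1 : finrank Qa (⊤ : Submodule Qa (ι → Qa)) ≤ j := by
    refine ha4 ⊤ (fun ρ _ i => ha1 i _) (fun i => ?_)
    choose α hα using ha2 i
    refine ⟨α, fun ρ _ => ?_⟩
    exact affine_of_grad (H i) (z a) (fun t => (α t : ℂ)) (pt lam (M a))
      (fun t y => by rw [ha3 i t y, hα t]) fun t => (ρ t : ℂ)
  rw [finrank_top, Module.finrank_pi] at h1
  have h2 := SB.rk_le_card Δ (cls U M)
  rw [Fintype.card_prod, Fintype.card_fin] at h2
  have h3 : Fintype.card ι * r ≤ j * r := Nat.mul_le_mul_right _ h1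
  omega

/-- The claim for value zero, with the sharp constant. -/
theorem claim0 (hC : HPC fun e => e * (e - 1)) {I : Type} {r : ℕ} (lam : Fin r → ℂ)
    (hlam : LinearIndependent Qa lam) (hlog : ∀ j, lam j ∈ Lsp) (U : Ultrafilter I) (j m : ℕ) :
    Claim lam U (fun s' => s' = 0) j m (j * r + m * (m - 1)) := by
  classical
  induction m using Nat.strong_induction_on with
  | _ m ih =>
  intro ζ ι _ _ hm s s' hs' F H z M Δ hz hF hH hR
  subst hm
  subst hs'
  by_cases hA : ∀ᶠ a in (U : Filter I), ∃ i, ∃ x, eval (pv (z a) x) (F i) ≠ 0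
  · obtain ⟨i, hi⟩ := pick_ex U _ hA
    obtain ⟨e, he1, he2, he3⟩ := case_zero hC lam hlam hlog U (fun m => j * r + m * (m - 1))
      (fun s' => s' = 0) rfl ih F H (F i) z M Δ hz hF hH hR (hF.mono fun a ha => ha i) hi
    refine he3.trans ?_
    obtain ⟨d, hd⟩ : ∃ d, Fintype.card ι = d + e := ⟨Fintype.card ι - e, by omega⟩
    have h1 : Fintype.card ι - e = d := by omega
    rw [h1, hd]
    show j * r + d * (d - 1) + e * d + e * (e - 1) ≤ _
    have h2 : (d + e) * (d + e - 1) = d * (d - 1) + e * d + e * (e - 1) + d * e := by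
      obtain ⟨f, rfl⟩ : ∃ f, e = f + 1 := ⟨e - 1, by omega⟩
      rcases d with _ | d
      · simp
      · have h3 : d + 1 + (f + 1) - 1 = d + f + 1 := by omega
        have h4 : d + 1 - 1 = d := by omega
        have h5 : f + 1 - 1 = f := by omega
        rw [h3, h4, h5]
        ring
    omega
  have hA' : ∀ᶠ a in (U : Filter I), ∀ i x, eval (pv (z a) x) (F i) = 0 := by
    rw [← Ultrafilter.eventually_not] at hA
    filter_upwards [hA] with a ha i x
    by_contra h
    exact ha ⟨i, x, h⟩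
  obtain ⟨a, ha1, ha4⟩ := (hA'.and hR).exists
  have h1 : finrank Qa (⊤ : Submodule Qa (ι → Qa)) ≤ j :=
    ha4 ⊤ (fun ρ _ i => ha1 i _) fun i => i.elim0
  rw [finrank_top, Module.finrank_pi] at h1
  have h2 := SB.rk_le_card Δ (cls U M)
  rw [Fintype.card_prod, Fintype.card_fin] at h2
  have h3 : Fintype.card ι * r ≤ j * r := Nat.mul_le_mul_right _ h1
  omega

end MP60829e.SL
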