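import Pool.Agent.Lib.MP_60829e_nt.SL.Ind
import Pool.Agent.Lib.MP_60829e_nt.SB.Count
import Pool.Agent.Lib.MP_60829e_nt.HS.Main
import Pool.Agent.Lib.MP_60829e_nt.BBaker

/-! # Theorem S in the sharp form, value zero and values in `Lt` -/

open MvPolynomial Module

namespace MP60829e.SL

open MP60829e.ST (Qa Lsp Lt)
open MP60829e.PS
open MP60829e.SB (pt pv cls evl rk)

theorem hpc : HPC fun e => e * (e - 1) := fun _ a ha V hV hs => HS.hps a ha V hV hs

/-- The bad pairs: the polynomials `F i` vanish and the polynomials `H i` have values in `Lt` at the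
point `M lam`, and every rational subspace through this point on which the `F i` vanish and the `H i`
are affine over the algebraic numbers has dimension at most `j`. -/
def BadL {ζ ι : Type} [Fintype ι] {r s s' : ℕ} (lam : Fin r → ℂ)
    (F : Fin s → MvPolynomial (ζ ⊕ ι) ℂ) (H : Fin s' → MvPolynomial (ζ ⊕ ι) ℂ) (j : ℕ)
    (z : ζ → Qa) (M : ι × Fin r → Qa) : Prop :=
  (∀ i, eval (pv z (pt lam M)) (F i) = 0) ∧ (∀ i, eval (pv z (pt lam M)) (H i) ∈ Lt) ∧
    NoR F H j z (pt lam M)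

/-- Baker: independence over the algebraic numbers -/
private theorem sl_li {r : ℕ} (lam : Fin r → ℂ)
    (hl : ∀ i, IsAlgebraic ℚ (Complex.exp (lam i))) (hli : LinearIndependent ℚ lam) :
    LinearIndependent Qa lam := by
  rw [Fintype.linearIndependent_iff]
  intro g hg i
  have h1 : ∑ i, lam i * ((g i : Qa) : ℂ) = 0 := by
    rw [← hg]
    refine Finset.sum_congr rfl fun i _ => ?_
    rw [mul_comm]
    rfl
  have h2 := Pool.Agent.Lib.MP_60829e_nt.Bk.baker_hom lam hl hli (fun i => ((g i : Qa) : ℂ))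
    (fun i => (mem_algebraicClosure_iff.1 (g i).2)) h1 i
  exact Subtype.ext h2

/-- From the claim to the dimension. -/
theorem dim_of_claim {n N r s s' j : ℕ} (F : Fin s → MvPolynomial (Fin N ⊕ Fin n) ℂ)
    (H : Fin s' → MvPolynomial (Fin N ⊕ Fin n) ℂ) (lam : Fin r → ℂ) (ok : ℕ → Prop)
    (hok : ok s') (B : ℕ)
    (hclaim : ∀ {I : Type} (U : Ultrafilter I), Claim lam U ok j n (j * r + B))
    (J : Finset (Fin n × Fin r)) (hJ : j * r + N + B < J.card) :
    ∃ P : MvPolynomial (Fin n × Fin r) Qa, P ≠ 0 ∧ P.vars ⊆ J ∧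
      ∀ (z : Fin N → Qa) (M : Fin n × Fin r → Qa), BadL lam F H j z M → eval M P = 0 := by
  classical
  by_contra hcon
  push Not at hcon
  set I : Type := (Fin N → Qa) × (Fin n × Fin r → Qa) with hI
  set S : Set I := {a | BadL lam F H j a.1 a.2} with hS
  set Y : I → J → Qa := fun a s => a.2 s.1 with hY
  have hgen : ∀ P : MvPolynomial J Qa, P ≠ 0 → ∃ a ∈ S, eval (Y a) P ≠ 0 := by
    intro P hP
    have h1 : rename (Subtype.val : J → Fin n × Fin r) P ≠ 0 := by
      intro h0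
      exact hP (rename_injective _ Subtype.val_injective (by rw [h0, map_zero]))
    have h2 : (rename (Subtype.val : J → Fin n × Fin r) P).vars ⊆ J := by
      refine (vars_rename _ _).trans fun x hx => ?_
      obtain ⟨y, -, rfl⟩ := Finset.mem_image.1 hx
      exact y.2
    obtain ⟨z, M, hb, hM⟩ := hcon _ h1 h2
    refine ⟨(z, M), hb, ?_⟩
    rw [eval_rename] at hM
    exact hM
  obtain ⟨U, hU1, hU2⟩ := FC.exists_ultra Y S hgen
  have hind : AlgebraicIndependent Qa fun s : J => UP.mk U fun a => Y a s := by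
    rw [algebraicIndependent_iff]
    intro p hp
    by_contra hne
    have h1 : UP.mk U (fun i => eval (Y i) p) = 0 := by
      rw [← hp]
      exact (FC.up_aeval U Y p).symm
    have h2 := UP.mk_eq_zero.1 h1
    obtain ⟨i, hi1, hi2⟩ := (h2.and (hU2 p hne)).exists
    exact hi2 hi1
  have hex : ∀ s : J, ∃ D : Derivation Qa (UP U Qa) (UP U Qa), ∀ s' : J,
      D (UP.mk U fun a => Y a s') = if s' = s then 1 else 0 := fun s =>
    exists_derivation_of_algebraicIndependent hind _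
  choose D hD using hex
  have h1 : J.card ≤ rk (⊤ : Submodule (UP U Qa) (Derivation Qa (UP U Qa) (UP U Qa)))
      (cls U fun a : I => a.2) := SB.le_rk_of_delta J _ D fun s t => hD s t
  have h2 := SB.rk_split (⊤ : Submodule (UP U Qa) (Derivation Qa (UP U Qa) (UP U Qa)))
    (cls U fun a : I => a.2) (cls U fun a : I => a.1)
  have h3 := SB.rk_le_card (⊤ : Submodule (UP U Qa) (Derivation Qa (UP U Qa) (UP U Qa)))
    (cls U fun a : I => a.1)
  have h4 := hclaim U (Fin N) (Fin n) (Fintype.card_fin n) hok F H (fun a => a.1) (fun a => a.2)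
    (⊤ ⊓ LinearMap.ker (evl (cls U fun a : I => a.1)))
    (fun D hD t => by
      have h5 := LinearMap.mem_ker.1 (Submodule.mem_inf.1 hD).2
      exact congrFun h5 t)
    (hU1.mono fun a ha => ha.1) (hU1.mono fun a ha => ha.2.1) (hU1.mono fun a ha => ha.2.2)
  rw [Fintype.card_fin] at h3
  have h5 := (h1.trans h2).trans (add_le_add h4 h3)
  omega

/-- From the dimension to the count. -/
theorem count_of_dim {n r d : ℕ} (B : Set (Fin n × Fin r → Qa))
    (h : ∀ J : Finset (Fin n × Fin r), d < J.card →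
      ∃ P : MvPolynomial (Fin n × Fin r) Qa, P ≠ 0 ∧ P.vars ⊆ J ∧ ∀ M ∈ B, eval M P = 0) :
    ∃ K : ℕ, ∀ S : Finset Qa, S.Nonempty →
      {M : Fin n × Fin r → Qa | (∀ p, M p ∈ S) ∧ M ∈ B}.ncard ≤ K * S.card ^ d := by
  classical
  set e : Fin n × Fin r ≃ Fin (n * r) := finProdFinEquiv with he
  set B' : Set (Fin (n * r) → Qa) := {x | x ∘ e ∈ B} with hB'
  obtain ⟨K, hK⟩ := SB.grid_count d B' (by
    intro J hJ
    obtain ⟨P, hP, hv, h⟩ := h (J.map e.symm.toEmbedding) (by rw [Finset.card_map]; exact hJ)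
    refine ⟨rename e P, ?_, ?_, ?_⟩
    · intro h0
      exact hP (rename_injective _ e.injective (by rw [h0, map_zero]))
    · refine (vars_rename _ _).trans fun x hx => ?_
      obtain ⟨y, hy, rfl⟩ := Finset.mem_image.1 hx
      obtain ⟨w, hw, hwy⟩ := Finset.mem_map.1 (hv hy)
      rw [← hwy]
      simpa using hw
    · intro x hx
      rw [eval_rename]
      exact h _ hx)
  refine ⟨K, fun S hS => le_trans (le_of_eq ?_) (hK S hS)⟩
  refine Set.ncard_congr (fun M _ => M ∘ e.symm) ?_ ?_ ?_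
  · rintro M ⟨h1, hM⟩
    refine ⟨?_, fun i => h1 _⟩
    have h2 : (M ∘ e.symm) ∘ e = M := by
      funext p
      simp
    show (M ∘ e.symm) ∘ e ∈ B
    rw [h2]
    exact hM
  · intro M M' _ _ h
    funext p
    have := congrFun h (e p)
    simpa using this
  · rintro x ⟨hx, h1⟩
    refine ⟨x ∘ e, ⟨fun p => h1 _, hx⟩, ?_⟩
    funext i
    simp

/-- Theorem S with values in `Lt`, dimension form. -/
theorem dim_formL {n N r s s' j : ℕ} (F : Fin s → MvPolynomial (Fin N ⊕ Fin n) ℂ)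
    (H : Fin s' → MvPolynomial (Fin N ⊕ Fin n) ℂ) (lam : Fin r → ℂ)
    (hl : ∀ i, IsAlgebraic ℚ (Complex.exp (lam i))) (hli : LinearIndependent ℚ lam)
    (J : Finset (Fin n × Fin r)) (hJ : j * r + N + n * (n + 2) < J.card) :
    ∃ P : MvPolynomial (Fin n × Fin r) Qa, P ≠ 0 ∧ P.vars ⊆ J ∧
      ∀ (z : Fin N → Qa) (M : Fin n × Fin r → Qa), BadL lam F H j z M → eval M P = 0 :=
  dim_of_claim F H lam (fun _ => True) trivial (n * (n + 2))
    (fun U => claimL hpc lam (sl_li lam hl hli) (fun i => Submodule.subset_span (hl i)) U j n) J hJ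

/-- Theorem S with values in `Lt`, counting form. -/
theorem count_formL {n N r s s' j : ℕ} (F : Fin s → MvPolynomial (Fin N ⊕ Fin n) ℂ)
    (H : Fin s' → MvPolynomial (Fin N ⊕ Fin n) ℂ) (lam : Fin r → ℂ)
    (hl : ∀ i, IsAlgebraic ℚ (Complex.exp (lam i))) (hli : LinearIndependent ℚ lam) :
    ∃ K : ℕ, ∀ S : Finset Qa, S.Nonempty →
      {M : Fin n × Fin r → Qa | (∀ p, M p ∈ S) ∧ ∃ z : Fin N → Qa, BadL lam F H j z M}.ncard ≤
        K * S.card ^ (j * r + N + n * (n + 2)) :=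
  count_of_dim {M | ∃ z : Fin N → Qa, BadL lam F H j z M} fun J hJ => by
    obtain ⟨P, hP, hv, h⟩ := dim_formL (j := j) F H lam hl hli J hJ
    exact ⟨P, hP, hv, fun M ⟨z, hz⟩ => h z M hz⟩

/-- Theorem S, sharp, dimension form. -/
theorem dim_form0 {n N r s j : ℕ} (F : Fin s → MvPolynomial (Fin N ⊕ Fin n) ℂ)
    (lam : Fin r → ℂ) (hl : ∀ i, IsAlgebraic ℚ (Complex.exp (lam i)))
    (hli : LinearIndependent ℚ lam) (J : Finset (Fin n × Fin r))
    (hJ : j * r + N + n * (n - 1) < J.card) :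
    ∃ P : MvPolynomial (Fin n × Fin r) Qa, P ≠ 0 ∧ P.vars ⊆ J ∧
      ∀ (z : Fin N → Qa) (M : Fin n × Fin r → Qa),
        (∀ i, eval (pv z (pt lam M)) (F i) = 0) →
        (∀ R : Submodule Qa (Fin n → Qa),
          (∀ ρ ∈ R, ∀ i, eval (pv z fun t => pt lam M t + (ρ t : ℂ)) (F i) = 0) →
            finrank Qa R ≤ j) → eval M P = 0 := by
  obtain ⟨P, hP, hv, h⟩ := dim_of_claim (s' := 0) (N := N) F
    (fun _ => (0 : MvPolynomial (Fin N ⊕ Fin n) ℂ)) lam (fun s' => s' = 0)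
    rfl (n * (n - 1)) (fun U => claim0 hpc lam (sl_li lam hl hli)
      (fun i => Submodule.subset_span (hl i)) U j n) J hJ
  exact ⟨P, hP, hv, fun z M h1 h2 => h z M ⟨h1, fun i => i.elim0, fun R hR _ => h2 R hR⟩⟩

/-- Theorem S, sharp, counting form. -/
theorem count_form0 {n N r s j : ℕ} (F : Fin s → MvPolynomial (Fin N ⊕ Fin n) ℂ)
    (lam : Fin r → ℂ) (hl : ∀ i, IsAlgebraic ℚ (Complex.exp (lam i)))
    (hli : LinearIndependent ℚ lam) :
    ∃ K : ℕ, ∀ S : Finset Qa, S.Nonempty →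
      {M : Fin n × Fin r → Qa | (∀ p, M p ∈ S) ∧ ∃ z : Fin N → Qa,
        (∀ i, eval (pv z (pt lam M)) (F i) = 0) ∧
        ∀ R : Submodule Qa (Fin n → Qa),
          (∀ ρ ∈ R, ∀ i, eval (pv z fun t => pt lam M t + (ρ t : ℂ)) (F i) = 0) →
            finrank Qa R ≤ j}.ncard ≤ K * S.card ^ (j * r + N + n * (n - 1)) :=
  count_of_dim {M | ∃ z : Fin N → Qa, (∀ i, eval (pv z (pt lam M)) (F i) = 0) ∧
        ∀ R : Submodule Qa (Fin n → Qa),
          (∀ ρ ∈ R, ∀ i, eval (pv z fun t => pt lam M t + (ρ t : ℂ)) (F i) = 0) →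
            finrank Qa R ≤ j} fun J hJ => by
    obtain ⟨P, hP, hv, h⟩ := dim_form0 (j := j) F lam hl hli J hJ
    exact ⟨P, hP, hv, fun M ⟨z, hz⟩ => h z M hz.1 hz.2⟩

end MP60829e.SL
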