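import Pool.Agent.Lib.MP_60829e_nt.SL.TanL
import Pool.Agent.Lib.MP_60829e_nt.SL.HypL
import Pool.Agent.Lib.MP_60829e_nt.SB.Rk
import Pool.Agent.Lib.MP_60829e_nt.SB.Los
import Pool.Agent.Lib.MP_60829e_nt.SB.Red

/-! # One step of the elimination, values in `L` -/

open MvPolynomial Module

namespace MP60829e.SL

open MP60829e.ST (Qa Lsp Lt)
open MP60829e.PS
open MP60829e.SB (pt pv cls evl rk NP full red redMap)

/-- The counting hypothesis for values in `L` and numbers independent modulo `A`. -/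
def Cnt {r : ℕ} (lam : Fin r → ℂ) (L A : Submodule Qa ℂ) (κ : ℕ → ℕ) : Prop :=
  ∀ (Q : Type) [Fintype Q] (g : Q → ℂ), LinearIndependent Qa (fun i => A.mkQ (g i)) →
    ∀ (N : ℕ) (β : Fin N → Q × Fin r → Qa), LinearIndependent Qa β →
      (∀ s, ∑ i, g i * pt lam (β s) i ∈ L) → N ≤ κ (Fintype.card Q)

theorem cnt_zero {C : ℕ → ℕ} (hC : HPC C) {r : ℕ} (lam : Fin r → ℂ)
    (hlam : LinearIndependent Qa lam) (hlog : ∀ j, lam j ∈ Lsp) :
    Cnt lam (⊥ : Submodule Qa ℂ) ⊥ C := by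
  intro Q _ g hg N β hβ h
  refine hyp0_count hC lam hlam hlog g ?_ β hβ fun s => (Submodule.mem_bot Qa).1 (h s)
  exact LinearIndependent.of_comp (Submodule.mkQ (⊥ : Submodule Qa ℂ)) hg

theorem cnt_Lt {C : ℕ → ℕ} (hC : HPC C) {r : ℕ} (lam : Fin r → ℂ)
    (hlam : LinearIndependent Qa lam) (hlog : ∀ j, lam j ∈ Lsp) :
    Cnt lam Lt (Submodule.span Qa {(1 : ℂ)}) fun e => C (e + 1) + 1 := by
  intro Q _ g hg N β hβ h
  exact hypL_count hC lam hlam hlog g hg β hβ h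

private theorem sum_split {ι : Type} [Fintype ι] [DecidableEq ι] (Q : Finset ι) (f : ι → ℂ) :
    ∑ i, f i = ∑ i : {i // i ∈ Q}, f i.1 + ∑ j : {j // j ∉ Q}, f j.1 := by
  rw [← Fintype.sum_subtype_add_sum_subtype (fun i => i ∈ Q)]
  congr 1
  refine Finset.sum_congr ?_ fun _ _ => rfl
  ext i
  simp

/-- The derivations in `Δ` which kill `z` and `γ` give at most `κ e` independent vectors `D b`. -/
theorem rk_bG {I ζ ι : Type} [Fintype ζ] [Fintype ι] [DecidableEq ι] {r : ℕ}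
    (lam : Fin r → ℂ) (hlog : ∀ j, lam j ∈ Lsp) (U : Ultrafilter I)
    (L A : Submodule Qa ℂ) (hAL : ∀ c ∈ A, ∀ t ∈ Lsp, c * t ∈ L) {κ : ℕ → ℕ}
    (hcount : Cnt lam L A κ) (G : MvPolynomial (ζ ⊕ ι) ℂ) (z : I → ζ → Qa)
    (M : I → ι × Fin r → Qa)
    (h : ∀ᶠ a in (U : Filter I), eval (pv (z a) (pt lam (M a))) G ∈ L) (Q : Finset ι)
    (γ : I → {j // j ∉ Q} × {i // i ∈ Q} → Qa)
    (hli : ∀ᶠ a in (U : Filter I), LinearIndependent Qa fun i : {i // i ∈ Q} =>
      A.mkQ (eval (pv (z a) (pt lam (M a))) (pderiv (Sum.inr i.1) G)))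
    (hγ : ∀ᶠ a in (U : Filter I), ∀ j : {j // j ∉ Q},
      eval (pv (z a) (pt lam (M a))) (pderiv (Sum.inr j.1) G) -
        ∑ i : {i // i ∈ Q}, γ a (j, i) • eval (pv (z a) (pt lam (M a)))
          (pderiv (Sum.inr i.1) G) ∈ A)
    (b : I → {i // i ∈ Q} × Fin r → Qa)
    (hb : ∀ a i l, b a (i, l) = M a (i.1, l) + ∑ j, γ a (j, i) * M a (j.1, l))
    (Δ : Submodule (UP U Qa) (Derivation Qa (UP U Qa) (UP U Qa)))
    (hz : ∀ D ∈ Δ, ∀ t, D (cls U z t) = 0) (hg : ∀ D ∈ Δ, ∀ p, D (cls U γ p) = 0) :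
    rk Δ (cls U b) ≤ κ Q.card := by
  classical
  by_contra hcon
  push Not at hcon
  obtain ⟨D, hD, hDli⟩ := SB.exists_of_le_rk Δ (cls U b) (N := κ Q.card + 1) hcon
  -- representatives
  have hT : ∀ s, ∃ T : I → ι × Fin r → Qa, ∀ p, cls U T p = D s (cls U M p) := by
    intro s
    have h1 : ∀ p, ∃ f : I → Qa, UP.mk U f = D s (cls U M p) := fun p => UP.mk_surjective U _
    choose f hf using h1
    exact ⟨fun a p => f p a, fun p => hf p⟩
  choose T hT using hT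
  let β : I → Fin (κ Q.card + 1) → {i // i ∈ Q} × Fin r → Qa := fun a s p =>
    T s a (p.1.1, p.2) + ∑ j : {j // j ∉ Q}, γ a (j, p.1) * T s a (j.1, p.2)
  have hcls : ∀ s, (cls U fun a => β a s) = evl (cls U b) (D s) := by
    intro s
    funext p
    rw [SB.evl_apply]
    have e1 : cls U b p = cls U M (p.1.1, p.2) + ∑ j, cls U γ (j, p.1) * cls U M (j.1, p.2) := by
      have e2 : (fun a => b a p) = (fun a => M a (p.1.1, p.2)) +
          ∑ j, (fun a => γ a (j, p.1)) * (fun a => M a (j.1, p.2)) := by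
        funext a
        rw [Pi.add_apply, Finset.sum_apply]
        exact hb a p.1 p.2
      show UP.mk U (fun a => b a p) = _
      rw [e2, map_add, map_sum]
      simp only [map_mul]
      rfl
    rw [e1, map_add, map_sum]
    have e3 : ∀ j, D s (cls U γ (j, p.1) * cls U M (j.1, p.2)) =
        cls U γ (j, p.1) * cls U (T s) (j.1, p.2) := by
      intro j
      rw [Derivation.leibniz, hg (D s) (hD s), smul_zero, add_zero, smul_eq_mul, hT]
    rw [Finset.sum_congr rfl fun j _ => e3 j, ← hT]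
    have e4 : (fun a => β a s p) = (fun a => T s a (p.1.1, p.2)) +
        ∑ j, (fun a => γ a (j, p.1)) * (fun a => T s a (j.1, p.2)) := by
      funext a
      rw [Pi.add_apply, Finset.sum_apply]
      rfl
    show UP.mk U (fun a => β a s p) = _
    rw [e4, map_add, map_sum]
    simp only [map_mul]
    rfl
  have hβ : ∀ᶠ a in (U : Filter I), LinearIndependent Qa (β a) := by
    refine SB.eventually_li U (fun a => β a) ?_
    have h1 : (fun s : Fin (κ Q.card + 1) => cls U fun a => β a s) =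
        fun s => evl (cls U b) (D s) := funext hcls
    rw [h1]
    exact hDli
  have htan : ∀ᶠ a in (U : Filter I), ∀ s, ∑ i, eval (pv (z a) (pt lam (M a)))
      (pderiv (Sum.inr i) G) * pt lam (T s a) i ∈ L :=
    Filter.eventually_all.2 fun s =>
      tangentL U L lam G z M h (D s) (hz (D s) (hD s)) (T s) (hT s)
  obtain ⟨a, ⟨⟨⟨ha1, ha2⟩, ha3⟩, ha4⟩⟩ := (((hβ.and htan).and hli).and hγ).exists
  have hfin := hcount {i // i ∈ Q} (fun i => eval (pv (z a) (pt lam (M a)))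
    (pderiv (Sum.inr i.1) G)) ha3 _ (β a) ha1 (by
    intro s
    have e1 : ∀ i : {i // i ∈ Q}, pt lam (β a s) i = pt lam (T s a) i.1 +
        ∑ j : {j // j ∉ Q}, (γ a (j, i) : ℂ) * pt lam (T s a) j.1 := by
      intro i
      unfold SB.pt
      have e2 : ∀ l, β a s (i, l) • lam l = T s a (i.1, l) • lam l +
          ∑ j : {j // j ∉ Q}, (γ a (j, i) : ℂ) * (T s a (j.1, l) • lam l) := by
        intro l
        show (T s a (i.1, l) + ∑ j : {j // j ∉ Q}, γ a (j, i) * T s a (j.1, l)) • lam l = _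
        rw [add_smul, Finset.sum_smul]
        congr 1
        refine Finset.sum_congr rfl fun j _ => ?_
        rw [mul_smul]
        rfl
      rw [Finset.sum_congr rfl fun l _ => e2 l, Finset.sum_add_distrib, Finset.sum_comm]
      congr 1
      refine Finset.sum_congr rfl fun j _ => ?_
      rw [Finset.mul_sum]
    have e3 : ∑ i : {i // i ∈ Q}, eval (pv (z a) (pt lam (M a))) (pderiv (Sum.inr i.1) G) *
        pt lam (β a s) i =
        ∑ i, eval (pv (z a) (pt lam (M a))) (pderiv (Sum.inr i) G) * pt lam (T s a) i -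
        ∑ j : {j // j ∉ Q}, (eval (pv (z a) (pt lam (M a))) (pderiv (Sum.inr j.1) G) -
          ∑ i : {i // i ∈ Q}, γ a (j, i) • eval (pv (z a) (pt lam (M a)))
            (pderiv (Sum.inr i.1) G)) * pt lam (T s a) j.1 := by
      have e4 : ∑ i, eval (pv (z a) (pt lam (M a))) (pderiv (Sum.inr i) G) * pt lam (T s a) i =
          ∑ i : {i // i ∈ Q}, eval (pv (z a) (pt lam (M a))) (pderiv (Sum.inr i.1) G) *
            pt lam (T s a) i.1 +
          ∑ j : {j // j ∉ Q}, eval (pv (z a) (pt lam (M a))) (pderiv (Sum.inr j.1) G) *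
            pt lam (T s a) j.1 := sum_split Q _
      rw [e4]
      have e5 : ∀ i : {i // i ∈ Q}, eval (pv (z a) (pt lam (M a))) (pderiv (Sum.inr i.1) G) *
          pt lam (β a s) i = eval (pv (z a) (pt lam (M a))) (pderiv (Sum.inr i.1) G) *
            pt lam (T s a) i.1 + ∑ j : {j // j ∉ Q}, (γ a (j, i) : ℂ) *
              eval (pv (z a) (pt lam (M a))) (pderiv (Sum.inr i.1) G) * pt lam (T s a) j.1 := by
        intro i
        rw [e1, mul_add, Finset.mul_sum]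
        congr 1
        exact Finset.sum_congr rfl fun j _ => by ring
      rw [Finset.sum_congr rfl fun i _ => e5 i, Finset.sum_add_distrib, Finset.sum_comm]
      have e6 : ∀ j : {j // j ∉ Q}, (eval (pv (z a) (pt lam (M a))) (pderiv (Sum.inr j.1) G) -
          ∑ i : {i // i ∈ Q}, γ a (j, i) • eval (pv (z a) (pt lam (M a)))
            (pderiv (Sum.inr i.1) G)) * pt lam (T s a) j.1 =
          eval (pv (z a) (pt lam (M a))) (pderiv (Sum.inr j.1) G) * pt lam (T s a) j.1 -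
            ∑ i : {i // i ∈ Q}, (γ a (j, i) : ℂ) *
              eval (pv (z a) (pt lam (M a))) (pderiv (Sum.inr i.1) G) * pt lam (T s a) j.1 := by
        intro j
        rw [sub_mul, Finset.sum_mul]
        rfl
      rw [Finset.sum_congr rfl fun j _ => e6 j, Finset.sum_sub_distrib]
      ring
    rw [e3]
    refine L.sub_mem (ha2 s) (L.sum_mem fun j _ => ?_)
    exact hAL _ (ha4 j) _ (pt_mem lam hlog _ _))
  rw [Fintype.card_coe] at hfin
  omega

/-- The condition on the rational subspaces. -/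
def NoR {ζ ι : Type} [Fintype ι] {s s' : ℕ} (F : Fin s → MvPolynomial (ζ ⊕ ι) ℂ)
    (H : Fin s' → MvPolynomial (ζ ⊕ ι) ℂ) (j : ℕ) (z : ζ → Qa) (x : ι → ℂ) : Prop :=
  ∀ R : Submodule Qa (ι → Qa),
    (∀ ρ ∈ R, ∀ i, eval (pv z fun t => x t + (ρ t : ℂ)) (F i) = 0) →
    (∀ i, ∃ α : ι → Qa, ∀ ρ ∈ R, eval (pv z fun t => x t + (ρ t : ℂ)) (H i) =
      eval (pv z x) (H i) + ∑ t, (α t : ℂ) * (ρ t : ℂ)) →
    finrank Qa R ≤ j

/-- The claim for `m` coordinates with the bound `b`; `ok` restricts the number of the conditions with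
values in `Lt`. -/
def Claim {I : Type} {r : ℕ} (lam : Fin r → ℂ) (U : Ultrafilter I) (ok : ℕ → Prop)
    (j m b : ℕ) : Prop :=
  ∀ (ζ ι : Type) [Fintype ζ] [Fintype ι], Fintype.card ι = m → ∀ {s s' : ℕ}, ok s' → ∀
    (F : Fin s → MvPolynomial (ζ ⊕ ι) ℂ) (H : Fin s' → MvPolynomial (ζ ⊕ ι) ℂ)
    (z : I → ζ → Qa) (M : I → ι × Fin r → Qa)
    (Δ : Submodule (UP U Qa) (Derivation Qa (UP U Qa) (UP U Qa))),
    (∀ D ∈ Δ, ∀ t, D (cls U z t) = 0) →
    (∀ᶠ a in (U : Filter I), ∀ i, eval (pv (z a) (pt lam (M a))) (F i) = 0) →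
    (∀ᶠ a in (U : Filter I), ∀ i, eval (pv (z a) (pt lam (M a))) (H i) ∈ Lt) →
    (∀ᶠ a in (U : Filter I), NoR F H j (z a) (pt lam (M a))) →
    rk Δ (cls U M) ≤ b

/-- The condition on the rational subspaces passes to the reduced system. -/
theorem noR_red {ζ ι : Type} [Fintype ι] [DecidableEq ι] {r s s' j : ℕ} (lam : Fin r → ℂ)
    (Q : Finset ι) (F : Fin s → MvPolynomial (ζ ⊕ ι) ℂ) (H : Fin s' → MvPolynomial (ζ ⊕ ι) ℂ)
    (z : ζ → Qa) (γ : {j // j ∉ Q} × {i // i ∈ Q} → Qa) (b : {i // i ∈ Q} × Fin r → Qa)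
    (x : {j // j ∉ Q} → ℂ) (h : NoR F H j z (full lam Q γ b x)) :
    NoR (fun i => red lam Q (F i)) (fun i => red lam Q (H i)) j (Sum.elim z (Sum.elim γ b)) x := by
  intro R' hF hH
  have hinj : Function.Injective (redMap Q γ) := by
    intro ρ σ h
    funext j
    have h1 := congrFun h j.1
    rw [SB.redMap_apply, SB.redMap_apply, dif_neg j.2, dif_neg j.2] at h1
    exact h1
  have h1 : finrank Qa R' = finrank Qa (R'.map (redMap Q γ)) :=
    LinearEquiv.finrank_eq (Submodule.equivMapOfInjective _ hinj R')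
  rw [h1]
  refine h (R'.map (redMap Q γ)) ?_ ?_
  · rintro _ ⟨ρ, hρ, rfl⟩ i
    have h2 := hF ρ hρ i
    rw [SB.eval_red, SB.full_add] at h2
    exact h2
  · intro i
    obtain ⟨α, hα⟩ := hH i
    refine ⟨fun t => if h : t ∈ Q then 0 else α ⟨t, h⟩, ?_⟩
    rintro _ ⟨ρ, hρ, rfl⟩
    have h2 := hα ρ hρ
    rw [SB.eval_red, SB.full_add, SB.eval_red] at h2
    rw [h2]
    congr 1
    have h3 : ∑ t, (((if h : t ∈ Q then 0 else α ⟨t, h⟩ : Qa)) : ℂ) *
        ((redMap Q γ ρ t : Qa) : ℂ) =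
        ∑ t : {t // t ∈ Q}, (((if h : t.1 ∈ Q then 0 else α ⟨t.1, h⟩ : Qa)) : ℂ) *
          ((redMap Q γ ρ t.1 : Qa) : ℂ) +
        ∑ t : {t // t ∉ Q}, (((if h : t.1 ∈ Q then 0 else α ⟨t.1, h⟩ : Qa)) : ℂ) *
          ((redMap Q γ ρ t.1 : Qa) : ℂ) := sum_split Q _
    rw [h3]
    have h4 : ∀ t : {t // t ∈ Q}, (((if h : t.1 ∈ Q then 0 else α ⟨t.1, h⟩ : Qa)) : ℂ) *
          ((redMap Q γ ρ t.1 : Qa) : ℂ) = 0 := by
      intro t
      rw [dif_pos t.2]
      have : ((0 : Qa) : ℂ) = 0 := rfl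
      rw [this, zero_mul]
    rw [Finset.sum_eq_zero fun t _ => h4 t, zero_add]
    refine Finset.sum_congr rfl fun t _ => ?_
    rw [dif_neg t.2, SB.redMap_apply, dif_neg t.2]

/-- One step. -/
theorem step {I ζ ι : Type} [Fintype ζ] [Fintype ι] {r s s' j : ℕ}
    (lam : Fin r → ℂ) (hlog : ∀ j, lam j ∈ Lsp) (U : Ultrafilter I)
    (L A : Submodule Qa ℂ) (hAL : ∀ c ∈ A, ∀ t ∈ Lsp, c * t ∈ L) {κ : ℕ → ℕ}
    (hcount : Cnt lam L A κ) (B : ℕ → ℕ) (ok : ℕ → Prop) (hok : ok s')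
    (IH : ∀ m < Fintype.card ι, Claim lam U ok j m (B m))
    (F : Fin s → MvPolynomial (ζ ⊕ ι) ℂ) (H : Fin s' → MvPolynomial (ζ ⊕ ι) ℂ)
    (G : MvPolynomial (ζ ⊕ ι) ℂ) (z : I → ζ → Qa) (M : I → ι × Fin r → Qa)
    (Δ : Submodule (UP U Qa) (Derivation Qa (UP U Qa) (UP U Qa)))
    (hz : ∀ D ∈ Δ, ∀ t, D (cls U z t) = 0)
    (hF : ∀ᶠ a in (U : Filter I), ∀ i, eval (pv (z a) (pt lam (M a))) (F i) = 0)
    (hH : ∀ᶠ a in (U : Filter I), ∀ i, eval (pv (z a) (pt lam (M a))) (H i) ∈ Lt)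
    (hR : ∀ᶠ a in (U : Filter I), NoR F H j (z a) (pt lam (M a)))
    (hG : ∀ᶠ a in (U : Filter I), eval (pv (z a) (pt lam (M a))) G ∈ L)
    (hg : ∀ᶠ a in (U : Filter I), ∃ t, eval (pv (z a) (pt lam (M a)))
      (pderiv (Sum.inr t) G) ∉ A) :
    ∃ e, 1 ≤ e ∧ e ≤ Fintype.card ι ∧
      rk Δ (cls U M) ≤ B (Fintype.card ι - e) + e * (Fintype.card ι - e) + κ e := by
  classical
  -- the set `Q`
  obtain ⟨Q, hQ⟩ : ∃ Q : Finset ι, ∀ᶠ a in (U : Filter I), Q.Nonempty ∧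
      LinearIndependent Qa (fun i : {i // i ∈ Q} => A.mkQ (eval (pv (z a) (pt lam (M a)))
        (pderiv (Sum.inr i.1) G))) ∧
      ∃ γ : {j // j ∉ Q} × {i // i ∈ Q} → Qa, ∀ j : {j // j ∉ Q},
        eval (pv (z a) (pt lam (M a))) (pderiv (Sum.inr j.1) G) -
          ∑ i : {i // i ∈ Q}, γ (j, i) • eval (pv (z a) (pt lam (M a)))
            (pderiv (Sum.inr i.1) G) ∈ A := by
    let f : I → Finset ι := fun a =>
      if h : ∃ t, eval (pv (z a) (pt lam (M a))) (pderiv (Sum.inr t) G) ∉ A then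
        (exists_subA A (fun t => eval (pv (z a) (pt lam (M a))) (pderiv (Sum.inr t) G)) h).choose
      else ∅
    obtain ⟨Q, hQ⟩ := SB.pick U f
    refine ⟨Q, ?_⟩
    filter_upwards [hQ, hg] with a ha1 ha2
    have h1 := (exists_subA A (fun t => eval (pv (z a) (pt lam (M a)))
      (pderiv (Sum.inr t) G)) ha2).choose_spec
    have h2 : f a = (exists_subA A (fun t => eval (pv (z a) (pt lam (M a)))
      (pderiv (Sum.inr t) G)) ha2).choose := dif_pos ha2
    rw [← h2, ha1] at h1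
    exact h1
  obtain ⟨a0, ha0⟩ := hQ.exists
  have hQne : 1 ≤ Q.card := Finset.card_pos.2 ha0.1
  have hQle : Q.card ≤ Fintype.card ι := Finset.card_le_univ Q
  -- the coefficients
  obtain ⟨γ, hγ⟩ : ∃ γ : I → {j // j ∉ Q} × {i // i ∈ Q} → Qa, ∀ᶠ a in (U : Filter I),
      ∀ j : {j // j ∉ Q}, eval (pv (z a) (pt lam (M a))) (pderiv (Sum.inr j.1) G) -
          ∑ i : {i // i ∈ Q}, γ a (j, i) • eval (pv (z a) (pt lam (M a)))
            (pderiv (Sum.inr i.1) G) ∈ A := by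
    refine ⟨fun a => if h : ∃ γ : {j // j ∉ Q} × {i // i ∈ Q} → Qa, ∀ j : {j // j ∉ Q},
        eval (pv (z a) (pt lam (M a))) (pderiv (Sum.inr j.1) G) -
          ∑ i : {i // i ∈ Q}, γ (j, i) • eval (pv (z a) (pt lam (M a)))
            (pderiv (Sum.inr i.1) G) ∈ A then h.choose else 0, ?_⟩
    filter_upwards [hQ] with a ha
    rw [dif_pos ha.2.2]
    exact ha.2.2.choose_spec
  obtain ⟨b, hb⟩ : ∃ b : I → {i // i ∈ Q} × Fin r → Qa, ∀ a i l,
      b a (i, l) = M a (i.1, l) + ∑ j : {j // j ∉ Q}, γ a (j, i) * M a (j.1, l) :=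
    ⟨fun a p => M a (p.1.1, p.2) + ∑ j : {j // j ∉ Q}, γ a (j, p.1) * M a (j.1, p.2),
      fun a i l => rfl⟩
  -- the spaces of derivations
  set Δ1 := Δ ⊓ LinearMap.ker (evl (cls U γ)) with hΔ1
  set Δ2 := Δ1 ⊓ LinearMap.ker (evl (cls U b)) with hΔ2
  have hk1 : ∀ D ∈ Δ1, ∀ p, D (cls U γ p) = 0 := by
    intro D hD p
    exact congrFun (LinearMap.mem_ker.1 (Submodule.mem_inf.1 hD).2) p
  have hk2 : ∀ D ∈ Δ2, ∀ p, D (cls U b p) = 0 := by
    intro D hD p
    exact congrFun (LinearMap.mem_ker.1 (Submodule.mem_inf.1 hD).2) p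
  have h1 : rk Δ (cls U M) ≤ rk Δ1 (cls U M) + rk Δ (cls U γ) :=
    SB.rk_split Δ (cls U M) (cls U γ)
  have h2 : rk Δ (cls U γ) ≤ Q.card * (Fintype.card ι - Q.card) := by
    refine (SB.rk_le_card Δ (cls U γ)).trans ?_
    rw [Fintype.card_prod, Fintype.card_coe, mul_comm]
    have h3 : Fintype.card {j // j ∉ Q} = Fintype.card ι - Q.card := by
      rw [Fintype.card_subtype_compl, Fintype.card_coe]
    rw [h3]
  have h3 : rk Δ1 (cls U M) ≤ rk Δ2 (cls U M) + rk Δ1 (cls U b) :=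
    SB.rk_split Δ1 (cls U M) (cls U b)
  have h4 : rk Δ1 (cls U b) ≤ κ Q.card :=
    rk_bG lam hlog U L A hAL hcount G z M hG Q γ (hQ.mono fun a ha => ha.2.1) hγ b hb Δ1
      (fun D hD => hz D (Submodule.mem_inf.1 hD).1) hk1
  -- the remaining coordinates
  let M' : I → {j // j ∉ Q} × Fin r → Qa := fun a p => M a (p.1.1, p.2)
  have h5 : rk Δ2 (cls U M) ≤ rk Δ2 (cls U M') := by
    refine SB.rk_le_of_forall Δ2 (cls U M) (cls U M') ?_
    rintro D hD hD' ⟨i, l⟩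
    by_cases hi : i ∈ Q
    · have e1 : cls U b (⟨i, hi⟩, l) = cls U M (i, l) +
          ∑ j : {j // j ∉ Q}, cls U γ (j, ⟨i, hi⟩) * cls U M' (j, l) := by
        have e2 : (fun a => b a (⟨i, hi⟩, l)) = (fun a => M a (i, l)) +
            ∑ j : {j // j ∉ Q}, (fun a => γ a (j, ⟨i, hi⟩)) * (fun a => M' a (j, l)) := by
          funext a
          rw [Pi.add_apply, Finset.sum_apply]
          exact hb a ⟨i, hi⟩ l
        show UP.mk U (fun a => b a (⟨i, hi⟩, l)) = _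
        rw [e2, map_add, map_sum]
        simp only [map_mul]
        rfl
      have e3 := hk2 D hD (⟨i, hi⟩, l)
      rw [e1, map_add, map_sum] at e3
      have e4 : ∀ j : {j // j ∉ Q}, D (cls U γ (j, ⟨i, hi⟩) * cls U M' (j, l)) = 0 := by
        intro j
        rw [Derivation.leibniz, hk1 D (Submodule.mem_inf.1 hD).1, hD', smul_zero, smul_zero,
          add_zero]
      rw [Finset.sum_eq_zero fun j _ => e4 j, add_zero] at e3
      exact e3
    · exact hD' (⟨i, hi⟩, l)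
  have hcard : Fintype.card {j // j ∉ Q} = Fintype.card ι - Q.card := by
    rw [Fintype.card_subtype_compl, Fintype.card_coe]
  have h6 : rk Δ2 (cls U M') ≤ B (Fintype.card ι - Q.card) := by
    refine IH (Fintype.card ι - Q.card) (by omega) (NP ζ ι Q r) {j // j ∉ Q} hcard hok
      (fun i => red lam Q (F i)) (fun i => red lam Q (H i))
      (fun a => Sum.elim (z a) (Sum.elim (γ a) (b a))) M' Δ2 ?_ ?_ ?_ ?_
    · rintro D hD (t | p | p)
      · exact hz D (Submodule.mem_inf.1 (Submodule.mem_inf.1 hD).1).1 t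
      · exact hk1 D (Submodule.mem_inf.1 hD).1 p
      · exact hk2 D hD p
    · filter_upwards [hF] with a ha i
      rw [SB.eval_red, SB.full_pt lam Q (γ a) (M a) (b a) (hb a)]
      exact ha i
    · filter_upwards [hH] with a ha i
      rw [SB.eval_red, SB.full_pt lam Q (γ a) (M a) (b a) (hb a)]
      exact ha i
    · filter_upwards [hR] with a ha
      refine noR_red lam Q F H (z a) (γ a) (b a) _ ?_
      rw [SB.full_pt lam Q (γ a) (M a) (b a) (hb a)]
      exact ha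
  refine ⟨Q.card, hQne, hQle, ?_⟩
  omega

end MP60829e.SL
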